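import Pool.Agent.T9h19.MB.Defs

set_option autoImplicit false
set_option linter.unusedSectionVars false
set_option linter.unusedVariables false

/-!
# Substitution of exclusive or and random restriction

A restriction `ρ` fixes for each variable `v` one of the two variables `(v, false)`, `(v, true)`:
`ρ v = (i, c)` means `(v, i) := c`, and `(v, !i) := v ⊕ c`.
-/

namespace Pool.Agent.T9h96.MB

open Finset Pool.Agent.T9h19.MB

variable {V : Type} [Fintype V] [DecidableEq V]

/-- `S` contains a literal which is false after the restriction. -/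
def Kill (ρ : V → Bool × Bool) (S : Finset ((V × Bool) × Bool)) : Prop :=
  ∃ l ∈ S, l.1.2 = (ρ l.1.1).1 ∧ l.2 ≠ (ρ l.1.1).2

instance (ρ : V → Bool × Bool) (S : Finset ((V × Bool) × Bool)) : Decidable (Kill ρ S) := by
  unfold Kill; infer_instance

/-- The remaining literals after the restriction. -/
def img (ρ : V → Bool × Bool) (S : Finset ((V × Bool) × Bool)) : Finset (V × Bool) :=
  (S.filter fun l => l.1.2 ≠ (ρ l.1.1).1).image fun l => (l.1.1, xor l.2 (ρ l.1.1).2)

theorem kill_union {ρ : V → Bool × Bool} {S S' : Finset ((V × Bool) × Bool)} :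
    Kill ρ (S ∪ S') ↔ Kill ρ S ∨ Kill ρ S' := by
  unfold Kill
  constructor
  · rintro ⟨l, hl, h⟩
    rcases mem_union.1 hl with h1 | h1
    · exact Or.inl ⟨l, h1, h⟩
    · exact Or.inr ⟨l, h1, h⟩
  · rintro (⟨l, hl, h⟩ | ⟨l, hl, h⟩)
    · exact ⟨l, mem_union_left _ hl, h⟩
    · exact ⟨l, mem_union_right _ hl, h⟩

theorem img_union (ρ : V → Bool × Bool) (S S' : Finset ((V × Bool) × Bool)) :
    img ρ (S ∪ S') = img ρ S ∪ img ρ S' := by
  unfold img
  rw [filter_union, image_union]

theorem kill_single {ρ : V → Bool × Bool} {l : (V × Bool) × Bool} :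
    Kill ρ {l} ↔ l.1.2 = (ρ l.1.1).1 ∧ l.2 ≠ (ρ l.1.1).2 := by
  unfold Kill; simp

theorem img_single_fixed {ρ : V → Bool × Bool} {l : (V × Bool) × Bool} (h : l.1.2 = (ρ l.1.1).1) :
    img ρ {l} = ∅ := by
  unfold img
  rw [filter_singleton, if_neg (by simpa using h)]
  rfl

theorem img_single_free {ρ : V → Bool × Bool} {l : (V × Bool) × Bool} (h : l.1.2 ≠ (ρ l.1.1).1) :
    img ρ {l} = {(l.1.1, xor l.2 (ρ l.1.1).2)} := by
  unfold img
  rw [filter_singleton, if_pos h, image_singleton]

/-! ### The clauses -/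

theorem mem_neg_liftC {C : Cl V} {β : V → Bool} {x : (V × Bool) × Bool} :
    x ∈ neg (liftC C β) ↔ ∃ l ∈ C, x = ((l.1, false), β l.1) ∨
      x = ((l.1, true), xor (β l.1) (!l.2)) := by
  unfold neg liftC
  simp only [mem_image, mem_biUnion, mem_insert, mem_singleton]
  constructor
  · rintro ⟨y, ⟨l, hl, rfl | rfl⟩, rfl⟩
    · exact ⟨l, hl, Or.inl (by simp)⟩
    · exact ⟨l, hl, Or.inr (by simp)⟩
  · rintro ⟨l, hl, rfl | rfl⟩
    · exact ⟨((l.1, false), !(β l.1)), ⟨l, hl, Or.inl rfl⟩, by simp⟩
    · exact ⟨((l.1, true), !(xor (β l.1) (!l.2))), ⟨l, hl, Or.inr rfl⟩, by simp⟩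

theorem img_neg_liftC {ρ : V → Bool × Bool} {C : Cl V} {β : V → Bool}
    (hk : ¬ Kill ρ (neg (liftC C β))) : img ρ (neg (liftC C β)) = neg C := by
  unfold Kill at hk
  push Not at hk
  have key : ∀ l ∈ C, ∀ x, (x = ((l.1, false), β l.1) ∨ x = ((l.1, true), xor (β l.1) (!l.2))) →
      x.1.2 ≠ (ρ x.1.1).1 → (x.1.1, xor x.2 (ρ x.1.1).2) = (l.1, !l.2) := by
    intro l hl x hx hxi
    have h1 := hk ((l.1, false), β l.1) (mem_neg_liftC.2 ⟨l, hl, Or.inl rfl⟩)
    have h2 := hk ((l.1, true), xor (β l.1) (!l.2)) (mem_neg_liftC.2 ⟨l, hl, Or.inr rfl⟩)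
    simp only at h1 h2
    rcases hx with rfl | rfl
    · simp only at hxi ⊢
      have h3 : true = (ρ l.1).1 := by
        cases hh : (ρ l.1).1
        · exact absurd hh.symm hxi
        · rfl
      rw [← h2 h3]
      simp
    · simp only at hxi ⊢
      have h3 : false = (ρ l.1).1 := by
        cases hh : (ρ l.1).1
        · rfl
        · exact absurd hh.symm hxi
      rw [← h1 h3]
      congr 1
      cases β l.1 <;> cases l.2 <;> rfl
  ext y
  unfold img
  simp only [mem_image, mem_filter]
  constructor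
  · rintro ⟨x, ⟨hx, hxi⟩, rfl⟩
    obtain ⟨l, hl, hxl⟩ := mem_neg_liftC.1 hx
    rw [key l hl x hxl hxi]
    exact mem_image.2 ⟨l, hl, rfl⟩
  · intro hy
    obtain ⟨l, hl, rfl⟩ := mem_image.1 hy
    rcases hb : (ρ l.1).1 with _ | _
    · refine ⟨((l.1, true), xor (β l.1) (!l.2)), ⟨mem_neg_liftC.2 ⟨l, hl, Or.inr rfl⟩, ?_⟩, ?_⟩
      · simp [hb]
      · exact key l hl _ (Or.inr rfl) (by simp [hb])
    · refine ⟨((l.1, false), β l.1), ⟨mem_neg_liftC.2 ⟨l, hl, Or.inl rfl⟩, ?_⟩, ?_⟩
      · simp [hb]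
      · exact key l hl _ (Or.inl rfl) (by simp [hb])

/-! ### Push-forward -/

section push

variable {ι κ : Type} [Fintype ι] [Fintype κ] [DecidableEq κ]

theorem push1 (g : ι → κ) (c : ι → ℝ) (h : κ → ℝ) :
    ∑ A, (∑ S, if g S = A then c S else 0) * h A = ∑ S, c S * h (g S) := by
  simp_rw [sum_mul]
  rw [sum_comm]
  apply sum_congr rfl
  intro S _
  simp_rw [ite_mul, zero_mul]
  rw [sum_ite_eq univ (g S), if_pos (mem_univ _)]

theorem push2 (g : ι → κ) (c : ι → ℝ) (f : κ → κ → ℝ) :
    ∑ A, ∑ A', (∑ S, if g S = A then c S else 0) * (∑ S, if g S = A' then c S else 0) * f A A' =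
      ∑ S, ∑ S', c S * c S' * f (g S) (g S') := by
  have h1 : ∀ A, ∑ A', (∑ S, if g S = A then c S else 0) * (∑ S, if g S = A' then c S else 0) *
      f A A' = (∑ S, if g S = A then c S else 0) * ∑ S', c S' * f A (g S') := by
    intro A
    rw [← push1 g c (fun A' => f A A'), mul_sum]
    apply sum_congr rfl
    intro A' _
    rw [mul_assoc]
  simp_rw [h1]
  rw [push1 g c (fun A => ∑ S', c S' * f A (g S'))]
  apply sum_congr rfl
  intro S _
  rw [mul_sum]
  apply sum_congr rfl
  intro S' _
  rw [mul_assoc]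

theorem push_sq (g : ι → κ) (c : ι → ℝ) :
    ∑ A, (∑ S, if g S = A then c S else 0) ^ 2 ≤ Fintype.card ι * ∑ S, c S ^ 2 := by
  have h1 : ∀ A, (∑ S, if g S = A then c S else 0) ^ 2 ≤
      Fintype.card ι * ∑ S, if g S = A then c S ^ 2 else 0 := by
    intro A
    have h2 := sq_sum_le_card_mul_sum_sq (s := (univ : Finset ι))
      (f := fun S => if g S = A then c S else 0)
    refine le_trans h2 (le_of_eq ?_)
    rw [card_univ]
    congr 1
    apply sum_congr rfl
    intro S _
    by_cases h : g S = A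
    · simp only [if_pos h]
    · simp only [if_neg h]; norm_num
  refine le_trans (sum_le_sum fun A _ => h1 A) (le_of_eq ?_)
  rw [← mul_sum, sum_comm]
  congr 1
  apply sum_congr rfl
  intro S _
  rw [sum_ite_eq univ (g S), if_pos (mem_univ _)]

end push

/-! ### The restricted pseudo-expectation -/

/-- Good conjunctions. -/
def Good (ρ : V → Bool × Bool) (d : ℕ) (S : Finset ((V × Bool) × Bool)) : Prop :=
  Kill ρ S ∨ (img ρ S).card ≤ d

theorem card_all : (Fintype.card (Finset ((V × Bool) × Bool)) : ℝ) =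
    2 ^ (4 * Fintype.card V) := by
  rw [Fintype.card_finset, Fintype.card_prod, Fintype.card_prod, Fintype.card_bool]
  have : Fintype.card V * 2 * 2 = 4 * Fintype.card V := by ring
  rw [this]
  norm_num

noncomputable def restr {F : Finset (Cl V)} {d : ℕ} {η : ℝ} (hη : 0 ≤ η)
    (P : PE F (fun S => S.card ≤ d) η) (ρ : V → Bool × Bool) :
    PE (lift F) (Good ρ d) (η * 2 ^ (4 * Fintype.card V)) where
  e := fun S => if Kill ρ S then 0 else P.e (img ρ S)
  one := by
    rw [if_neg (by unfold Kill; simp)]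
    exact P.one
  compl := by
    intro S w
    have e : ∀ b, insert (w, b) S = {(w, b)} ∪ S := fun b => rfl
    simp only [e, kill_union, img_union, kill_single]
    by_cases hS : Kill ρ S
    · simp [hS]
    · simp only [hS, or_false, if_false]
      by_cases hw : w.2 = (ρ w.1).1
      · rw [img_single_fixed (l := (w, true)) hw, img_single_fixed (l := (w, false)) hw,
          empty_union]
        cases hc : (ρ w.1).2 <;> simp [hw]
      · rw [img_single_free (l := (w, true)) hw, img_single_free (l := (w, false)) hw]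
        simp only [hw, false_and, if_false]
        have := P.compl (img ρ S) w.1
        cases hc : (ρ w.1).2
        · simpa [hc] using this
        · rw [add_comm] at this
          simpa [hc] using this
  psd := by
    intro c hc
    set c0 : Finset ((V × Bool) × Bool) → ℝ := fun S => if Kill ρ S then 0 else c S with hc0
    set ct : Finset (V × Bool) → ℝ := fun A => ∑ S, if img ρ S = A then c0 S else 0 with hct
    have h1 : ∑ S, ∑ S', c S * c S' * (if Kill ρ (S ∪ S') then 0 else P.e (img ρ (S ∪ S'))) =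
        ∑ S, ∑ S', c0 S * c0 S' * P.e (img ρ S ∪ img ρ S') := by
      apply sum_congr rfl; intro S _
      apply sum_congr rfl; intro S' _
      rw [img_union]
      by_cases hS : Kill ρ S
      · simp [hc0, hS, kill_union]
      · by_cases hS' : Kill ρ S'
        · simp [hc0, hS', kill_union]
        · simp [hc0, hS, hS', kill_union]
    have h2 := P.psd ct (by
      intro A hA
      by_contra hcard
      apply hA
      apply sum_eq_zero
      intro S _
      by_cases hSA : img ρ S = A
      · rw [if_pos hSA]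
        by_cases hS : Kill ρ S
        · simp [hc0, hS]
        · simp only [hc0, hS, if_false]
          by_contra hcS
          rcases hc S hcS with h3 | h3
          · exact hS h3
          · rw [hSA] at h3; exact hcard h3
      · rw [if_neg hSA])
    rw [push2 (img ρ) c0 (fun A A' => P.e (A ∪ A')), ← h1] at h2
    have h3 := push_sq (img ρ) c0
    have h4 : ∑ S, c0 S ^ 2 ≤ ∑ S, c S ^ 2 := by
      apply sum_le_sum
      intro S _
      by_cases hS : Kill ρ S
      · simp only [hc0, hS, if_true]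
        have := sq_nonneg (c S)
        simpa using this
      · simp only [hc0, hS, if_false]; exact le_rfl
    rw [card_all] at h3
    have h5 : η * ∑ A, ct A ^ 2 ≤ η * 2 ^ (4 * Fintype.card V) * ∑ S, c S ^ 2 := by
      rw [mul_assoc]
      apply mul_le_mul_of_nonneg_left _ hη
      exact le_trans h3 (mul_le_mul_of_nonneg_left h4 (by positivity))
    linarith
  ax := by
    intro C' hC' S hS
    unfold lift at hC'
    simp only [mem_image, mem_product, mem_univ, and_true] at hC'
    obtain ⟨⟨C, β⟩, hC, rfl⟩ := hC'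
    simp only at hC ⊢
    have hη' : η ≤ η * 2 ^ (4 * Fintype.card V) := by
      have : (1 : ℝ) ≤ 2 ^ (4 * Fintype.card V) := one_le_pow₀ (by norm_num)
      nlinarith
    by_cases hk : Kill ρ (S ∪ neg (liftC C β))
    · rw [if_pos hk, abs_zero]; linarith
    · rw [if_neg hk]
      rw [kill_union] at hk
      push Not at hk
      rw [img_union, img_neg_liftC hk.2]
      have hS' : (img ρ S).card ≤ d := by
        rcases hS with h | h
        · exact absurd h hk.1
        · exact h
      exact le_trans (P.ax C hC _ hS') hη'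

/-! ### Random restriction -/

/-- The weight of the choice `x` at `v`. -/
noncomputable def wtv (S : Finset ((V × Bool) × Bool)) (v : V) (x : Bool × Bool) : ℝ :=
  if ∀ b, ((v, x.1), b) ∈ S → b = x.2 then
    (4 / 3) ^ ((univ : Finset Bool).filter fun b => ((v, !x.1), b) ∈ S).card else 0

theorem wtv_nonneg (S : Finset ((V × Bool) × Bool)) (v : V) (x : Bool × Bool) : 0 ≤ wtv S v x := by
  unfold wtv
  split_ifs
  · positivity
  · exact le_rfl

theorem sum_wtv (S : Finset ((V × Bool) × Bool)) (v : V) : ∑ x, wtv S v x ≤ 4 := by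
  have hu : ∀ f : Bool × Bool → ℝ, ∑ x, f x =
      f (true, true) + f (true, false) + (f (false, true) + f (false, false)) := by
    intro f
    rw [Fintype.sum_prod_type, Fintype.sum_bool, Fintype.sum_bool, Fintype.sum_bool]
  rw [hu]
  have hb : (univ : Finset Bool) = {true, false} := rfl
  unfold wtv
  simp only [Bool.forall_bool, hb, filter_insert, filter_singleton, Bool.not_true, Bool.not_false]
  by_cases h1 : ((v, true), true) ∈ S <;> by_cases h2 : ((v, true), false) ∈ S <;>
    by_cases h3 : ((v, false), true) ∈ S <;> by_cases h4 : ((v, false), false) ∈ S <;>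
    simp [h1, h2, h3, h4] <;> norm_num

theorem card_img_le (ρ : V → Bool × Bool) (S : Finset ((V × Bool) × Bool)) :
    (img ρ S).card ≤ ∑ v, ((univ : Finset Bool).filter fun b => ((v, !(ρ v).1), b) ∈ S).card := by
  unfold img
  refine le_trans card_image_le ?_
  rw [card_eq_sum_card_fiberwise (f := fun l : (V × Bool) × Bool => l.1.1) (t := univ)
    (fun _ _ => by simp)]
  apply sum_le_sum
  intro v _
  apply card_le_card_of_injOn (fun l => l.2)
  · intro l hl
    simp only [coe_filter, Set.mem_ofPred_eq, mem_filter] at hl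
    obtain ⟨⟨hl1, hl2⟩, rfl⟩ := hl
    simp only [coe_filter, Set.mem_ofPred_eq, mem_univ, true_and]
    have : (!(ρ l.1.1).1) = l.1.2 := by
      cases h5 : (ρ l.1.1).1 <;> cases h6 : l.1.2 <;> simp_all
    rw [this]
    exact hl1
  · intro l hl l' hl' hll
    simp only [coe_filter, Set.mem_ofPred_eq, mem_filter] at hl hl' hll
    obtain ⟨⟨hl1, hl2⟩, hl3⟩ := hl
    obtain ⟨⟨hl1', hl2'⟩, hl3'⟩ := hl'
    have h7 : l.1.2 = l'.1.2 := by
      rw [hl3] at hl2
      rw [hl3'] at hl2'
      cases h5 : (ρ v).1 <;> cases h6 : l.1.2 <;> cases h8 : l'.1.2 <;> simp_all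
    exact Prod.ext (Prod.ext (hl3.trans hl3'.symm) h7) hll

theorem sum_unkilled (S : Finset ((V × Bool) × Bool)) :
    ∑ ρ : V → Bool × Bool, (if Kill ρ S then (0 : ℝ) else (4 / 3) ^ (img ρ S).card) ≤
      4 ^ Fintype.card V := by
  have h1 : ∑ ρ : V → Bool × Bool, (if Kill ρ S then (0 : ℝ) else (4 / 3) ^ (img ρ S).card) ≤
      ∑ ρ : V → Bool × Bool, ∏ v, wtv S v (ρ v) := by
    apply sum_le_sum
    intro ρ _
    by_cases hk : Kill ρ S
    · rw [if_pos hk]
      exact prod_nonneg fun v _ => wtv_nonneg _ _ _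
    · rw [if_neg hk]
      unfold Kill at hk
      push Not at hk
      have h2 : ∀ v, wtv S v (ρ v) =
          (4 / 3) ^ ((univ : Finset Bool).filter fun b => ((v, !(ρ v).1), b) ∈ S).card := by
        intro v
        unfold wtv
        rw [if_pos]
        intro b hb
        exact hk ((v, (ρ v).1), b) hb rfl
      simp_rw [h2]
      rw [prod_pow_eq_pow_sum]
      exact pow_le_pow_right₀ (by norm_num) (card_img_le ρ S)
  refine le_trans h1 ?_
  have h3 := prod_univ_sum (fun _ : V => (univ : Finset (Bool × Bool))) (fun v x => wtv S v x)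
  rw [Fintype.piFinset_univ] at h3
  rw [← h3]
  refine le_trans (prod_le_prod (fun v _ => sum_nonneg fun x _ => wtv_nonneg _ _ _)
    fun v _ => sum_wtv S v) ?_
  rw [prod_const, card_univ]

theorem exists_restr (T : Finset (Finset ((V × Bool) × Bool))) (d : ℕ)
    (hT : (T.card : ℝ) < (4 / 3) ^ d) : ∃ ρ : V → Bool × Bool, ∀ S ∈ T, Good ρ d S := by
  by_contra hcon
  push Not at hcon
  have h1 : ∀ ρ : V → Bool × Bool, (4 / 3 : ℝ) ^ d ≤
      ∑ S ∈ T, (if Kill ρ S then (0 : ℝ) else (4 / 3) ^ (img ρ S).card) := by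
    intro ρ
    obtain ⟨S, hS, hg⟩ := hcon ρ
    unfold Good at hg
    push Not at hg
    refine le_trans ?_ (single_le_sum (f := fun S => if Kill ρ S then (0 : ℝ) else
      (4 / 3) ^ (img ρ S).card) (fun S _ => by positivity) hS)
    simp only [if_neg hg.1]
    exact pow_le_pow_right₀ (by norm_num) hg.2.le
  have h2 : ∑ _ρ : V → Bool × Bool, (4 / 3 : ℝ) ^ d ≤ ∑ S ∈ T, (4 : ℝ) ^ Fintype.card V := by
    refine le_trans (sum_le_sum fun ρ _ => h1 ρ) ?_
    rw [sum_comm]
    exact sum_le_sum fun S _ => sum_unkilled S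
  rw [sum_const, sum_const, card_univ, Fintype.card_fun, Fintype.card_prod, Fintype.card_bool,
    nsmul_eq_mul, nsmul_eq_mul] at h2
  push_cast at h2
  norm_num at h2
  have h3 : (0 : ℝ) < 4 ^ Fintype.card V := by positivity
  nlinarith

theorem lift_pe {F : Finset (Cl V)} {d : ℕ} {η : ℝ} (hη : 0 ≤ η)
    (P : PE F (fun S => S.card ≤ d) η) (hF : ∀ C ∈ F, ∀ v, ¬ ((v, true) ∈ C ∧ (v, false) ∈ C))
    (T : Finset (Finset ((V × Bool) × Bool))) (hT : (T.card : ℝ) < (4 / 3) ^ d) :
    ∃ good : Finset ((V × Bool) × Bool) → Prop, (∀ S ∈ T, good S) ∧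
      Nonempty (PE (lift F) good (η * 2 ^ (4 * Fintype.card V))) := by
  obtain ⟨ρ, hρ⟩ := exists_restr T d hT
  exact ⟨Good ρ d, hρ, ⟨restr hη P ρ⟩⟩

end Pool.Agent.T9h96.MB
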